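import Pool.Agent.HT177.Split.LS

/-!
# Directional derivatives of billiard eigenfunctions between two levels: a sharp upper bound (MP_6b977f_mp)

Let `Ω` be an open subset of the plane and `u_n` real solutions of `Δu + λ_n u = 0` in `Ω`, `λ_n → ∞`, which
are bounded in `L²` on the compact subsets of `Ω`; no boundary condition is used. The theorem: for
`a ≤ b` and every unit vector `v` the integral of `|∂_v u_n|` over the part of a Borel set `B` where
`a ≤ u_n ≤ b`, divided by `√λ_n`, is asymptotically at most `(b - a) |B| / π`. Here `B` is contained in a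
compact subset of `Ω`, or the area of `B` is finite and the energy of `u_n` on `B` is `O(λ_n)` (such as
`B = Ω` for Dirichlet or Neumann conditions). The constant `1 / π` is sharp: Neumann eigenfunctions of the
square.

Proof. On a small disc let `h_k = (λ_n^(-1/2) ∂_v)^k u_n`; all these functions solve the same equation, and
in the mean over a test function the shift by `λ_n^(-1/2) x` changes nothing asymptotically: this replaces
stationarity. The energy identity gives `mean h_(k+1)² ≤ mean h_k² + o(1)`, so the Taylor sums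
`p(y) = ∑_{k ≤ N} (i y)^k / k! h_k` satisfy `mean |p(y)|² ≤ C e^{2|y|}`. For a real `s` and `δ > 0` put
`φ(y) = mean (1/2) log (|p(y) - s|² + δ²)`. Then `φ''(y)` is up to a small error the mean of
`2 δ² |∂_v p|² / (|p - s|² + δ²)²`, and `φ(H) - φ(0) ≤ H + C`. Integration over `s` in an interval and the limit
`δ → 0`, then `H → ∞`, give the bound.
-/

set_option autoImplicit false
open MeasureTheory Filter Topology Pool.Agent.HT177.Split.LS
open scoped ContDiff ENNReal

namespace Pool.Agent.Results.MP_6b977f_mp.DirectionalDerivatives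

/-- **A sharp bound for directional derivatives.** For every sequence of solutions as above, every Borel
set `B ⊆ Ω` as above, every unit vector `v` and all `a ≤ b` the limsup of
`λ_n^(-1/2) ∫_{B, a ≤ u_n ≤ b} |∂_v u_n|` is at most `(b - a) / π` times the area of `B`. The Neumann
eigenfunctions `√2 cos (n x)` of the square `Q`, `λ = n²`, form such a sequence, `B = Q` is admissible, and
for `-√2 ≤ a ≤ b ≤ √2` and `n ≥ 1` one has `λ^(-1/2) ∫_{Q, a ≤ u ≤ b} |∂_x u| = (b - a) / π` times the area
of `Q`. -/
theorem result :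
    (∀ (Ω : Set ℂ) (lam : ℕ → ℝ) (u : ℕ → ℂ → ℝ), IsWaveSequence Ω lam u →
      ∀ B : Set ℂ, MeasurableSet B → B ⊆ Ω → Controlled Ω lam u B → ∀ a b : ℝ, a ≤ b →
        ∀ v : ℂ, ‖v‖ = 1 →
          limsup (fun n => (∫⁻ z in B ∩ {z | a ≤ u n z ∧ u n z ≤ b},
            ENNReal.ofReal |fderiv ℝ (u n) z v|) / ENNReal.ofReal √(lam n)) atTop ≤
            ENNReal.ofReal ((b - a) / Real.pi) * volume B) ∧
    IsWaveSequence square (fun n => (n : ℝ) ^ 2) neumann ∧
    Controlled square (fun n => (n : ℝ) ^ 2) neumann square ∧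
    ∀ n : ℕ, 1 ≤ n →
      (∀ z : ℂ, (z.re = 0 ∨ z.re = Real.pi) → fderiv ℝ (neumann n) z 1 = 0) ∧
      (∀ z : ℂ, fderiv ℝ (neumann n) z Complex.I = 0) ∧
      ∀ a b : ℝ, -√2 ≤ a → a ≤ b → b ≤ √2 →
        (∫⁻ z in square ∩ {z | a ≤ neumann n z ∧ neumann n z ≤ b},
          ENNReal.ofReal |fderiv ℝ (neumann n) z 1|) / ENNReal.ofReal √((n : ℝ) ^ 2) =
          ENNReal.ofReal ((b - a) / Real.pi) * volume square :=
  ⟨fun Ω lam u h B hB hBΩ hC a b hab => ((all.1 Ω lam u h).1 B hB hBΩ hC a b hab).2, all.2⟩

end Pool.Agent.Results.MP_6b977f_mp.DirectionalDerivatives
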