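import Pool.Agent.HT177.Split.LS

/-!
# Level curves of billiard eigenfunctions: upper bounds for their mean length (MP_6b977f_mp)

Let `Ω` be an open subset of the plane and `u_n` real solutions of `Δu + λ_n u = 0` in `Ω`, `λ_n → ∞`, which
are bounded in `L²` on the compact subsets of `Ω`; no boundary condition is used. The theorem: for
`a ≤ b` the integral of `|∇u_n|` over the part of a Borel set `B` where `a ≤ u_n ≤ b`, divided by `√λ_n`, is
asymptotically at most `(b - a) |B| / 2`; and the length of the regular part of the level curve `{u_n = s}`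
in an open set `V`, integrated over the levels `s ∈ [a, b]` and divided by `√λ_n`, is asymptotically at most
`(b - a) |V| / 2`. Here `B` is contained in a compact subset of `Ω`, or the area of `B` is finite and
the energy of `u_n` on `B` is `O(λ_n)` (such as `B = Ω` for Dirichlet or Neumann conditions). The random
wave of Berry's conjecture has `1 / (2 √2)` times the integral of `exp (-s² / 2)` over `[a, b]` in the place
of `(b - a) / 2`.

Proof. The mean over all directions `v` of the bound of the companion hand-in DirectionalDerivatives gives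
the one for `|∇u_n|`, since the mean of `|cos|` is `2 / π`. The length of the regular part of a level curve
is at most the lower limit of the integrals of `|∇u_n|` over `|u_n - s| ≤ ε`, divided by `2 ε` (project NL of
helper73).
-/

set_option autoImplicit false
open MeasureTheory Filter Topology Pool.Agent.HT177.Split.LS
open scoped ContDiff ENNReal

namespace Pool.Agent.Results.MP_6b977f_mp.LengthOfLevelCurves

/-- **Upper bounds for level curves.** Consider a sequence of solutions as above. (1) For every Borel set
`B ⊆ Ω` as above and all `a ≤ b`: the limsup of `λ_n^(-1/2) ∫_{B, a ≤ u_n ≤ b} |∇u_n|` is at most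
`(b - a) / 2` times the area of `B`. (2) For every open `V ⊆ Ω` as above there are measurable majorants
`L_n (s)` of the lengths of the regular parts of the level curves `{u_n = s}` in `V` such that for all
`a ≤ b` the limsup of `λ_n^(-1/2) ∫_a^b L_n (s) ds` is at most `(b - a) / 2` times the area of `V`. -/
theorem result (Ω : Set ℂ) (lam : ℕ → ℝ) (u : ℕ → ℂ → ℝ) (h : IsWaveSequence Ω lam u) :
    (∀ B : Set ℂ, MeasurableSet B → B ⊆ Ω → Controlled Ω lam u B → ∀ a b : ℝ, a ≤ b →
      limsup (fun n => (∫⁻ z in B ∩ {z | a ≤ u n z ∧ u n z ≤ b}, ENNReal.ofReal (gradNorm (u n) z)) /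
        ENNReal.ofReal √(lam n)) atTop ≤ ENNReal.ofReal ((b - a) / 2) * volume B) ∧
    ∀ V : Set ℂ, IsOpen V → V ⊆ Ω → Controlled Ω lam u V →
      ∃ L : ℕ → ℝ → ℝ≥0∞, (∀ n, Measurable (L n)) ∧
        (∀ n s, (Measure.hausdorffMeasure 1 : Measure ℂ) (levelCurve (u n) V s) ≤ L n s) ∧
        ∀ a b : ℝ, a ≤ b →
          limsup (fun n => (∫⁻ s in Set.Icc a b, L n s) / ENNReal.ofReal √(lam n)) atTop ≤
            ENNReal.ofReal ((b - a) / 2) * volume V :=
  ⟨fun B hB hBΩ hC a b hab => ((all.1 Ω lam u h).1 B hB hBΩ hC a b hab).1, (all.1 Ω lam u h).2⟩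

end Pool.Agent.Results.MP_6b977f_mp.LengthOfLevelCurves
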