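import Mathlib
import Pool.Agent.Q73.NL.F3
import Pool.Agent.Q73.NL.U

/-!
# Sharp lower bound for the nodal length of Laplace eigenfunctions in the plane (MP_6b977f_mp)

For every bounded planar domain and every smooth solution of `Δu + λu = 0` (any boundary condition),
the length of the zero set is at least `(√λ / π) (area - boundary term)`. So the nodal length of every
sequence of billiard eigenfunctions satisfies `liminf λ^(-1/2) length(Z) ≥ area / π`, in every open
subset; the random wave conjecture predicts the constant `1 / (2 √2) = 0.354`, and `1 / π = 0.318` is the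
best constant for general sequences. Every `φ` in `MW` has nodal length `≥ R² - π R` in every disc of
radius `R`.

Proof. A zero of `u` in the open disc `B(x, t)`, `t ≤ π / (2 √λ)`, forces two zeros on the circle `∂B(x, t)`
(minimum principles), so by Crofton's formula for circles the points of `Ω` with distance `< t` to the
zero set `Z` and distance `> t` to the boundary have the area at most `2 t H¹(Z)`. The test function
`sin (min (√λ δ) (π/2))`, `δ` the distance to `Z` and the boundary, gives `∫ cos (2 min (√λ δ) (π/2)) ≥ 0`,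
and integration over the level sets of `δ` gives the bound. Solutions with a zero of infinite order vanish
on an open set by strong unique continuation.
-/

set_option autoImplicit false
open MeasureTheory Filter Topology Complex
open scoped ContDiff ENNReal

namespace Pool.Agent.Results.MP_6b977f_mp.NodalLength

noncomputable section

/-- the Laplacian of the plane `ℂ`: `∂_x² + ∂_y²` -/
def laplacian (f : ℂ → ℝ) (z : ℂ) : ℝ :=
  fderiv ℝ (fun w => fderiv ℝ f w 1) z 1 + fderiv ℝ (fun w => fderiv ℝ f w I) z I

/-- `u` is a real smooth solution of `Δu + lam u = 0` in `Ω` -/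
def IsWave (Ω : Set ℂ) (lam : ℝ) (u : ℂ → ℝ) : Prop :=
  ContDiffOn ℝ ∞ u Ω ∧ ∀ z ∈ Ω, laplacian u z + lam * u z = 0

/-- the length (one-dimensional Hausdorff measure) of the zero set of `u` in `Ω` -/
def nodalLength (Ω : Set ℂ) (u : ℂ → ℝ) : ℝ≥0∞ := (μH[1] : Measure ℂ) {z | z ∈ Ω ∧ u z = 0}

/-- the area of the part of `Ω` within distance `r` of the complement -/
def collar (Ω : Set ℂ) (r : ℝ) : ℝ := volume.real {z | z ∈ Ω ∧ Metric.infDist z Ωᶜ ≤ r}

/-- the open square with side `π` -/
def square : Set ℂ := {z | (0 < z.re ∧ z.re < Real.pi) ∧ (0 < z.im ∧ z.im < Real.pi)}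

/-- **Sharp lower bound for the nodal length.** (1) In every bounded open set, for every `lam > 0` and
every solution. (2) Asymptotic form for every sequence of solutions in an open set, `lam n → ∞`.
(3) Every solution in the plane with `lam = 1` has nodal length `≥ R² - π R` in every disc of radius `R`.
(4) The constant `1 / π` in (1) and (2) is optimal, already for the Dirichlet eigenfunctions
`sin (n x) sin y` of the square. -/
theorem result :
    (∀ (Ω : Set ℂ) (lam : ℝ) (u : ℂ → ℝ), IsOpen Ω → Bornology.IsBounded Ω → 0 < lam →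
      IsWave Ω lam u →
      ENNReal.ofReal (Real.sqrt lam / Real.pi * (volume.real Ω -
        ∫ s in (0 : ℝ)..(Real.pi / 2), 2 * Real.sin (2 * s) * collar Ω (s / Real.sqrt lam))) ≤
        nodalLength Ω u) ∧
    (∀ (Ω : Set ℂ) (lam : ℕ → ℝ) (u : ℕ → ℂ → ℝ), IsOpen Ω → Tendsto lam atTop atTop →
      (∀ n, IsWave Ω (lam n) (u n)) →
      ENNReal.ofReal (1 / Real.pi) * volume Ω ≤
        liminf (fun n => nodalLength Ω (u n) / ENNReal.ofReal (Real.sqrt (lam n))) atTop) ∧
    (∀ u : ℂ → ℝ, IsWave Set.univ 1 u → ∀ (x : ℂ) (R : ℝ), 0 < R →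
      ENNReal.ofReal (R ^ 2 - Real.pi * R) ≤ nodalLength (Metric.ball x R) u) ∧
    (∀ n : ℕ, 1 ≤ n → IsWave square (n ^ 2 + 1) (fun z => Real.sin (n * z.re) * Real.sin z.im) ∧
      nodalLength square (fun z => Real.sin (n * z.re) * Real.sin z.im) ≤
        ENNReal.ofReal (Real.sqrt (n ^ 2 + 1) / Real.pi) * volume square) := by
  have hsol : ∀ {Ω : Set ℂ} {lam : ℝ} {u : ℂ → ℝ}, IsWave Ω lam u →
      Pool.Agent.Q73.NL.Sol Ω (fun _ => lam) u := fun h => ⟨h.1, h.2⟩
  have hU : Pool.Agent.Q73.NL.U3 := Pool.Agent.Q73.NL.u3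
  refine ⟨?_, ?_, ?_, ?_⟩
  · intro Ω lam u hΩ hb hl hu
    have hs : 0 < Real.sqrt lam := Real.sqrt_pos.2 hl
    have hs2 : Real.sqrt lam ^ 2 = lam := Real.sq_sqrt hl.le
    exact Pool.Agent.Q73.NL.main hU (V := fun _ => lam) (M := lam) hΩ hb (hsol hu) hs
      (fun _ _ => ⟨hs2.le, le_rfl⟩) continuousOn_const (by rw [hs2]; linarith)
  · intro Ω lam u hΩ hl hu
    have h1 := Pool.Agent.Q73.NL.surf hU (U := Ω) (ρ := fun _ => 1) (lam := lam) (u := u) hΩ
      (fun _ _ => one_pos) continuousOn_const hl (fun n => by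
        simpa only [mul_one] using hsol (hu n))
    simp only [ENNReal.ofReal_one, lintegral_const, MeasurableSet.univ, Measure.restrict_apply,
      Set.univ_inter, one_mul, Pool.Agent.Q73.NL.nl, Real.sqrt_one] at h1
    exact h1
  · intro u hu x R hR
    have hw : Pool.Agent.Q73.NL.Sol (Metric.ball x R) (fun _ => 1) u :=
      (hsol hu).mono (Set.subset_univ _)
    refine (ENNReal.ofReal_le_ofReal (Pool.Agent.Q73.NL.low_ball x hR)).trans ?_
    exact Pool.Agent.Q73.NL.main hU (V := fun _ => 1) (M := 1) Metric.isOpen_ball Metric.isBounded_ball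
      hw one_pos (fun _ _ => ⟨by norm_num, le_rfl⟩) continuousOn_const (by norm_num)
  · intro n hn
    exact ⟨⟨(Pool.Agent.Q73.NL.ex_smooth n).contDiffOn, fun z _ => Pool.Agent.Q73.NL.ex_lap n z⟩,
      Pool.Agent.Q73.NL.ex_sharp n hn⟩

end

end Pool.Agent.Results.MP_6b977f_mp.NodalLength
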