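import Mathlib
import Pool.Agent.Q73.PW.All
import Pool.Agent.Q73.PW.Ex

/-!
# Plane waves are extremal for all `L^q` norms of billiard eigenfunctions (MP_6b977f_mp)

Let `Ω` be an open subset of the plane of finite area and `u_n` real solutions of `Δu + λ_n u = 0` in `Ω`,
`λ_n → ∞`, bounded in `L²(Ω)`; no boundary condition is used. The theorem compares the distribution of the
values of `u_n` with the distribution of the values of the plane wave `√(2 m) cos`, `m` the mean of
`u_n²` over `Ω`: the mean of `|u_n|^q` is asymptotically at most (`0 < q < 2`), at least (`q > 2`) the mean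
of `|√(2 m) cos|^q`; more generally the mean of `Φ(u_n)` is at least the mean of `Φ(√(2 m) cos)` for all even
`Φ` such that `Φ'(x)/x` and `(x Φ'(x))'/x` are nondecreasing on `(0, ∞)`. Neumann eigenfunctions of the
square are an example with equality.

Proof. Let `P = u² + |∇u|²/λ`. An explicit vector field `a ∇u + b ∇P`, `a` and `b` functions of `(u, |∇u|²/λ)`,
has divergence at least `λ (m_Φ(√P) - Φ(u))` (a divergence identity in dimension two, and inequalities for
functions of one variable), `m_Φ(r)` the mean of `Φ(r cos t)`. In the interior the integral of the divergence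
against a test function is small; `p ↦ m_Φ(√p)` is convex and the mean of `P` is `2 m`. Near the boundary
only the growth of `Φ` at infinity is used.
-/

set_option autoImplicit false
open MeasureTheory Filter Topology Complex
open scoped ContDiff ENNReal

namespace Pool.Agent.Results.MP_6b977f_mp.PlaneWavesExtremal

noncomputable section

/-- the Laplacian of the plane `ℂ`: `∂_x² + ∂_y²` -/
def laplacian (f : ℂ → ℝ) (z : ℂ) : ℝ :=
  fderiv ℝ (fun w => fderiv ℝ f w 1) z 1 + fderiv ℝ (fun w => fderiv ℝ f w I) z I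

/-- the mean of `g` over `Ω` -/
def mean (Ω : Set ℂ) (g : ℂ → ℝ) : ℝ := (∫ z in Ω, g z) / (volume Ω).toReal

/-- `u n` are real smooth solutions of `Δu + λ_n u = 0` in the open set `Ω` of finite area, `λ_n → ∞`, and
the means of `u_n²` are at most `B` -/
structure IsWaveSequence (Ω : Set ℂ) (lam : ℕ → ℝ) (u : ℕ → ℂ → ℝ) (B : ℝ) : Prop where
  isOpen : IsOpen Ω
  nonempty : Ω.Nonempty
  finite : volume Ω ≠ ⊤
  tendsto : Tendsto lam atTop atTop
  smooth : ∀ n, ContDiffOn ℝ ∞ (u n) Ω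
  eigen : ∀ n, ∀ z ∈ Ω, laplacian (u n) z + lam n * u n z = 0
  integrable : ∀ n, IntegrableOn (fun z => u n z ^ 2) Ω
  bounded : ∀ n, mean Ω (fun z => u n z ^ 2) ≤ B

/-- the mean of `Φ (r cos t)` over a period (for even `Φ`) -/
def waveMean (Φ : ℝ → ℝ) (r : ℝ) : ℝ := (∫ t in (0 : ℝ)..Real.pi, Φ (r * Real.cos t)) / Real.pi

/-- `κ_q`, the mean of `|cos t|^q` -/
def kappa (q : ℝ) : ℝ := waveMean (fun x => |x| ^ q) 1

/-- `Φ` is smooth and even and `Φ''` is bounded -/
structure Admissible (Φ : ℝ → ℝ) : Prop where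
  smooth : ContDiff ℝ ∞ Φ
  even : ∀ x, Φ (-x) = Φ x
  bounded : ∃ L : ℝ, ∀ x, |deriv (deriv Φ) x| ≤ L

/-- a function is nondecreasing on `(0, ∞)` -/
def Increasing (g : ℝ → ℝ) : Prop := ∀ x y : ℝ, 0 < x → x ≤ y → g x ≤ g y

/-- the open square with side `π` -/
def square : Set ℂ := {z | (0 < z.re ∧ z.re < Real.pi) ∧ (0 < z.im ∧ z.im < Real.pi)}

/-- the Neumann eigenfunction `√2 cos (n x)` of the square -/
def neumann (n : ℕ) (z : ℂ) : ℝ := √2 * Real.cos (n * z.re)

/-- **Plane waves are extremal.** (1) For every open set `Ω` of finite area and every sequence of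
solutions of `Δu + λ_n u = 0`, `λ_n → ∞`, bounded in `L²(Ω)`, and every `η > 0`, for all large `n`: the mean
of `Φ(u_n)` is at least the mean of `Φ(√(2 m_n) cos t)` minus `η`, `m_n` the mean of `u_n²`, for all admissible
`Φ` with `Φ'(x)/x` and `(x Φ'(x))'/x` nondecreasing on `(0, ∞)`; the mean of `|u_n|^q` is at most
`κ_q (2 m_n)^(q/2) + η` for `0 < q < 2`, and at least `κ_q (2 m_n)^(q/2) - η` for `q > 2`. (2) For the Neumann
eigenfunctions `√2 cos (n x)` of the square (`λ = n²`, `m = 1`) the mean of `Φ(u)` is the mean of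
`Φ(√2 cos t)` for every continuous even `Φ`, so all these bounds are sharp. (3) `κ_1 = 2/π`, `κ_2 = 1/2`. -/
theorem result :
    (∀ (Ω : Set ℂ) (lam : ℕ → ℝ) (u : ℕ → ℂ → ℝ) (B : ℝ), IsWaveSequence Ω lam u B →
      ∀ η : ℝ, 0 < η →
      (∀ Φ : ℝ → ℝ, Admissible Φ → Increasing (fun x => deriv Φ x / x) →
        Increasing (fun x => deriv (fun t => t * deriv Φ t) x / x) → ∀ᶠ n in atTop,
          waveMean Φ √(2 * mean Ω (fun z => u n z ^ 2)) ≤ mean Ω (fun z => Φ (u n z)) + η) ∧
      (∀ q : ℝ, 0 < q → q < 2 → ∀ᶠ n in atTop,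
        mean Ω (fun z => |u n z| ^ q) ≤ kappa q * (2 * mean Ω (fun z => u n z ^ 2)) ^ (q / 2) + η) ∧
      (∀ q : ℝ, 2 < q → ∀ᶠ n in atTop,
        ENNReal.ofReal (kappa q * (2 * mean Ω (fun z => u n z ^ 2)) ^ (q / 2)) ≤
          (∫⁻ z in Ω, ENNReal.ofReal (|u n z| ^ q)) / volume Ω + ENNReal.ofReal η)) ∧
    (∀ n : ℕ, 1 ≤ n → ContDiff ℝ ∞ (neumann n) ∧
      (∀ z, laplacian (neumann n) z + (n : ℝ) ^ 2 * neumann n z = 0) ∧
      (∀ z, (z.re = 0 ∨ z.re = Real.pi) → fderiv ℝ (neumann n) z 1 = 0) ∧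
      (∀ z, fderiv ℝ (neumann n) z I = 0) ∧
      mean square (fun z => neumann n z ^ 2) = 1 ∧
      ∀ Φ : ℝ → ℝ, Continuous Φ → (∀ x, Φ (-x) = Φ x) →
        mean square (fun z => Φ (neumann n z)) = waveMean Φ √2) ∧
    kappa 1 = 2 / Real.pi ∧ kappa 2 = 1 / 2 := by
  obtain ⟨j5, j3, a1, a2, p1, p2⟩ := Pool.Agent.Q73.PW.allSt
  refine ⟨?_, ?_, a1.2.2.2.1, a1.2.2.2.2.1⟩
  · intro Ω lam u B h η hη
    have V0 : 0 < (volume Ω).toReal :=
      ENNReal.toReal_pos (h.isOpen.measure_pos volume h.nonempty).ne' h.finite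
    have D : Pool.Agent.Q73.PW.Bil.Dom Ω lam u ((volume Ω).toReal * B) := by
      refine ⟨h.isOpen, h.finite, h.tendsto, h.smooth, h.eigen, h.integrable, fun n => ?_⟩
      have := h.bounded n
      unfold mean at this
      rwa [div_le_iff₀ V0, mul_comm] at this
    have C := Pool.Agent.Q73.PW.Gl.plane Pool.Agent.Q73.PW.all13 a2 D
    have mf : ∀ n, AEStronglyMeasurable (u n) (volume.restrict Ω) := fun n =>
      (h.smooth n).continuousOn.aestronglyMeasurable h.isOpen.measurableSet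
    have em : ∀ n, (2 * ∫ z in Ω, u n z ^ 2) / (volume Ω).toReal = 2 * mean Ω (fun z => u n z ^ 2) :=
      fun n => by unfold mean; ring
    refine ⟨fun Φ hΦ h0 h1 => ?_, fun q q0 q2 => ?_, fun q hq => ?_⟩
    · obtain ⟨L, hL⟩ := hΦ.bounded
      filter_upwards [Pool.Agent.Q73.PW.Gl.cmp_mean C V0 (L := L) ⟨hΦ.smooth, hΦ.even, hL⟩ h0 h1 hη]
        with n hn
      rw [em] at hn
      exact hn
    · filter_upwards [Pool.Agent.Q73.PW.Gl.low_mean a1 p1 h.finite V0 mf h.integrable C q0 q2 hη]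
        with n hn
      rw [em] at hn
      exact hn
    · filter_upwards [Pool.Agent.Q73.PW.Gl.high_mean a1 p2 j3 h.finite V0 D.bd C hq hη] with n hn
      rw [em] at hn
      exact hn
  · intro n hn
    exact Pool.Agent.Q73.PW.Ex.ex n hn

end

end Pool.Agent.Results.MP_6b977f_mp.PlaneWavesExtremal
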